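import Mathlib
import Pool.Agent.V11199.WS.Window

/-!
# Word-search grids: the optimal letter distribution need not be unique

For the word `w = (ABBB)^4` in dimension `2` we show `C_2(w) = 3/2` and exhibit two grids on the
`4 × 4` torus with concentration exactly `3/2` and different letter distributions
(`A` has frequency `1/4`, respectively `3/8`).  Hence the stability statement of Q1 fails (already
for `δ = 0`).
-/

namespace Pool.Agent.Results.MP_f54ac9_co.TwoOptimalGrids

open Finset Pool.Agent.V11199.WS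

/-- The toroidal box `∏ ℤ/n_j`. -/
abbrev Torus {d : ℕ} (n : Fin d → ℕ) := (j : Fin d) → ZMod (n j)

/-- The directions `{-1,0,1}^d \ {0}`. -/
def dirs (d : ℕ) : Finset (Fin d → ℤ) :=
  (Fintype.piFinset (fun _ : Fin d => ({-1, 0, 1} : Finset ℤ))).erase 0

/-- The cell `p + t v` of the toroidal box. -/
def cell {d : ℕ} {n : Fin d → ℕ} (p : Torus n) (v : Fin d → ℤ) (t : ℤ) : Torus n :=
  fun j => p j + ((t * v j : ℤ) : ZMod (n j))

/-- `(p, v)` is an appearance of the word `w` (a list of letters; letters are natural numbers) in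
the grid `Γ`. -/
def Appears {d : ℕ} {n : Fin d → ℕ} (w : List ℕ) (Γ : Torus n → ℕ) (p : Torus n)
    (v : Fin d → ℤ) : Prop :=
  ∀ (i : ℕ) (hi : i < w.length), Γ (cell p v i) = w[i]

open Classical in
/-- The concentration `c_d(w, Γ)`: the number of appearances divided by the size of the grid. -/
noncomputable def conc {d : ℕ} (w : List ℕ) (n : Fin d → ℕ) [∀ j, NeZero (n j)]
    (Γ : Torus n → ℕ) : ℝ :=
  (((univ ×ˢ dirs d : Finset (Torus n × (Fin d → ℤ))).filter
    (fun q => Appears w Γ q.1 q.2)).card : ℝ) / (Fintype.card (Torus n) : ℝ)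

/-- `C_d(w)`, the supremum of the concentrations over all `d`-dimensional grids. -/
noncomputable def C (d : ℕ) (w : List ℕ) : ℝ :=
  sSup {c : ℝ | ∃ (n : Fin d → ℕ) (_ : ∀ j, NeZero (n j)) (Γ : Torus n → ℕ), c = conc w n Γ}

open Classical in
/-- The letter distribution of a grid. -/
noncomputable def letterDist {d : ℕ} (n : Fin d → ℕ) [∀ j, NeZero (n j)] (Γ : Torus n → ℕ)
    (a : ℕ) : ℝ :=
  ((univ.filter (fun p : Torus n => Γ p = a)).card : ℝ) / (Fintype.card (Torus n) : ℝ)

/-- Letter distributions: nonnegative, finitely supported, of total mass `1`. -/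
def IsLetterDistribution (h : ℕ → ℝ) : Prop :=
  (∀ a, 0 ≤ h a ∧ h a ≤ 1) ∧ (Function.support h).Finite ∧ ∑ᶠ a, h a = 1

/-- Total variation distance. -/
noncomputable def tv (h₁ h₂ : ℕ → ℝ) : ℝ := (1 / 2) * ∑ᶠ a, |h₁ a - h₂ a|

/-- The statement of Q1 for the word `w` in dimension `d`. -/
def StableFor (w : List ℕ) (d : ℕ) : Prop :=
  ∃ h : ℕ → ℝ, IsLetterDistribution h ∧
    ∀ (δ : ℝ) (n : Fin d → ℕ) (_ : ∀ j, NeZero (n j)) (Γ : Torus n → ℕ),
      0 ≤ δ → C d w * (1 - δ) ≤ conc w n Γ → tv (letterDist n Γ) h ≤ δ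

/-- The word `(ABBB)^4` with `A = 0`, `B = 1`. -/
def w₀ : List ℕ := [0, 1, 1, 1, 0, 1, 1, 1, 0, 1, 1, 1, 0, 1, 1, 1]

/-! ### The upper bound -/

section upper

variable {n : Fin 2 → ℕ} [∀ j, NeZero (n j)] (Γ : Torus n → ℕ)

/-- the `A`-cells seen from `z` -/
def view (z : Torus n) (a b : ℤ) : Prop := Γ (cell z ![a, b] 1) = 0

/-- the line through `q` in direction `v` is good near `q` -/
def Good (v : Fin 2 → ℤ) (q : Torus n) : Prop :=
  ∃ φ : ℕ, φ < 4 ∧ ∀ t : ℤ, -6 ≤ t → t ≤ 6 → (Γ (cell q v t) = 0 ↔ t % 4 = (φ : ℤ))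

omit [∀ j, NeZero (n j)] in
lemma cell_cell (p : Torus n) (v u : Fin 2 → ℤ) (s t : ℤ) :
    cell (cell p v s) u t = cell p (s • v + t • u) 1 := by
  funext j
  simp only [cell, Pi.add_apply, Pi.smul_apply, smul_eq_mul]
  push_cast
  ring

omit [∀ j, NeZero (n j)] in
lemma good_iff (z : Torus n) (a b u v : ℤ) (f g : ℤ → ℤ) (hf : ∀ t, f t = a + t * u)
    (hg : ∀ t, g t = b + t * v) :
    GoodLine (view Γ z) f g ↔ Good Γ ![u, v] (cell z ![a, b] 1) := by
  have : ∀ t, cell (cell z ![a, b] 1) ![u, v] t = cell z ![f t, g t] 1 := by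
    intro t
    rw [cell_cell]
    congr 1
    funext j
    fin_cases j
    · simp [hf]
    · simp [hg]
  unfold GoodLine Good LineOK view
  simp only [this]

open Classical in
/-- number of good cells in direction `v` -/
noncomputable def numGood (v : Fin 2 → ℤ) : ℕ := (univ.filter (fun q : Torus n => Good Γ v q)).card

open Classical in
lemma sum_ind_good (v : Fin 2 → ℤ) (a : Fin 2 → ℤ) :
    ∑ z : Torus n, ind (Good Γ v (cell z a 1)) = numGood Γ v := by
  unfold numGood
  rw [card_filter]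
  let c : Torus n := fun j => ((1 * a j : ℤ) : ZMod (n j))
  have h := Equiv.sum_comp (Equiv.addRight c) (fun z : Torus n => ind (Good Γ v z))
  have h2 : ∀ z : Torus n, (Equiv.addRight c) z = cell z a 1 := by
    intro z; rfl
  simp only [h2] at h
  rw [h]
  apply sum_congr rfl
  intro q _
  unfold ind
  congr

lemma sum_window :
    4 * (numGood Γ ![1, 0] + numGood Γ ![0, 1] + numGood Γ ![1, 1] + numGood Γ ![1, -1]) ≤
      12 * Fintype.card (Torus n) := by
  have h : ∀ z : Torus n, _ := fun z => window (view Γ z)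
  have hrow : ∀ (z : Torus n) (y : ℕ), GoodLine (view Γ z) (fun t => t) (fun _ => (y : ℤ)) ↔
      Good Γ ![1, 0] (cell z ![0, (y : ℤ)] 1) := by
    intro z y
    apply good_iff <;> intro t <;> ring
  have hcol : ∀ (z : Torus n) (x : ℕ), GoodLine (view Γ z) (fun _ => (x : ℤ)) (fun t => t) ↔
      Good Γ ![0, 1] (cell z ![(x : ℤ), 0] 1) := by
    intro z y
    apply good_iff <;> intro t <;> ring
  have hdiag : ∀ (z : Torus n) (c : ℕ), GoodLine (view Γ z) (fun t => (c : ℤ) + t) (fun t => t) ↔
      Good Γ ![1, 1] (cell z ![(c : ℤ), 0] 1) := by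
    intro z y
    apply good_iff <;> intro t <;> ring
  have hanti : ∀ (z : Torus n) (c : ℕ), GoodLine (view Γ z) (fun t => (c : ℤ) + t) (fun t => -t) ↔
      Good Γ ![1, -1] (cell z ![(c : ℤ), 0] 1) := by
    intro z y
    apply good_iff <;> intro t <;> ring
  simp only [hrow, hcol, hdiag, hanti] at h
  have hs := sum_le_sum (fun z (_ : z ∈ (univ : Finset (Torus n))) => h z)
  simp only [sum_add_distrib, sum_ind_good, sum_const, smul_eq_mul, card_univ] at hs
  linarith

lemma w₀_get (k : ℕ) (hk : k < w₀.length) : w₀[k] = 0 ↔ k % 4 = 0 := by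
  have hk' : k < 16 := hk
  interval_cases k <;> simp [w₀]

open Classical in
/-- number of appearances in direction `v` -/
noncomputable def numApp (v : Fin 2 → ℤ) : ℕ :=
  (univ.filter (fun p : Torus n => Appears w₀ Γ p v)).card

lemma app_le (v : Fin 2 → ℤ) : 4 * numApp Γ v ≤ numGood Γ v := by
  classical
  unfold numApp numGood
  have hinj : Set.InjOn (fun q : Torus n × Fin 4 => cell q.1 v (6 + (q.2.val : ℤ)))
      (((univ.filter (fun p : Torus n => Appears w₀ Γ p v)) ×ˢ (univ : Finset (Fin 4)) :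
        Finset (Torus n × Fin 4)) : Set (Torus n × Fin 4)) := by
    -- key: equality forces equal offsets
    have key : ∀ (p p' : Torus n) (i i' : Fin 4), Appears w₀ Γ p v → Appears w₀ Γ p' v →
        cell p v (6 + (i.val : ℤ)) = cell p' v (6 + (i'.val : ℤ)) → i.val ≤ i'.val := by
      intro p p' i i' hp hp' heq
      by_contra hlt
      push Not at hlt
      have hp'eq : p' = cell p v ((i.val - i'.val : ℕ) : ℤ) := by
        funext j
        have hj := congrFun heq j
        simp only [cell] at hj ⊢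
        rw [Nat.cast_sub hlt.le]
        push_cast at hj ⊢
        linear_combination -hj
      have h0 := hp' 0 (by decide)
      have hk : i.val - i'.val < w₀.length := by
        have := i.isLt
        show i.val - i'.val < 16
        omega
      have h1 := hp (i.val - i'.val) hk
      have e0 : cell p' v ((0 : ℕ) : ℤ) = p' := by
        funext j; simp [cell]
      rw [e0, hp'eq, h1] at h0
      have h2 : w₀[i.val - i'.val] = 0 := by rw [h0]; rfl
      rw [w₀_get] at h2
      have := i.isLt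
      omega
    rintro ⟨p, i⟩ hp ⟨p', i'⟩ hp' heq
    simp only [coe_product, coe_filter, mem_univ, true_and, coe_univ, Set.mem_prod,
      Set.mem_ofPred_eq, Set.mem_univ, and_true] at hp hp'
    simp only at heq
    have h1 := key p p' i i' hp hp' heq
    have h2 := key p' p i' i hp' hp heq.symm
    have hii : i = i' := Fin.ext (le_antisymm h1 h2)
    subst hii
    have hpp : p = p' := by
      funext j
      have hj := congrFun heq j
      simpa [cell] using hj
    rw [hpp]
  have himg : (((univ.filter (fun p : Torus n => Appears w₀ Γ p v)) ×ˢ (univ : Finset (Fin 4)) :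
        Finset (Torus n × Fin 4)).image (fun q : Torus n × Fin 4 => cell q.1 v (6 + (q.2.val : ℤ))))
        ⊆ univ.filter (fun q : Torus n => Good Γ v q) := by
    intro q hq
    rw [mem_image] at hq
    obtain ⟨⟨p, i⟩, hpi, rfl⟩ := hq
    rw [mem_product, mem_filter] at hpi
    obtain ⟨⟨-, hp⟩, -⟩ := hpi
    rw [mem_filter]
    refine ⟨mem_univ _, ?_⟩
    refine ⟨(6 - i.val) % 4, Nat.mod_lt _ (by norm_num), ?_⟩
    intro t ht1 ht2
    have hi := i.isLt
    obtain ⟨k, hk⟩ : ∃ k : ℕ, (k : ℤ) = 6 + (i.val : ℤ) + t := ⟨(6 + (i.val : ℤ) + t).toNat, by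
      rw [Int.toNat_of_nonneg]; omega⟩
    have hk16 : k < w₀.length := by show k < 16; omega
    have hcell : cell (cell p v (6 + (i.val : ℤ))) v t = cell p v (k : ℤ) := by
      funext j
      simp only [cell, hk]
      push_cast
      ring
    rw [hcell, hp k hk16, w₀_get]
    constructor <;> intro h5 <;> omega
  have hc := card_le_card himg
  rw [card_image_of_injOn hinj, card_product] at hc
  simp only [card_univ, Fintype.card_fin] at hc
  omega

omit [∀ j, NeZero (n j)] in
lemma good_neg (v : Fin 2 → ℤ) (q : Torus n) : Good Γ (-v) q ↔ Good Γ v q := by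
  have key : ∀ v : Fin 2 → ℤ, Good Γ v q → Good Γ (-v) q := by
    rintro v ⟨φ, hφ, h⟩
    refine ⟨(4 - φ) % 4, Nat.mod_lt _ (by norm_num), ?_⟩
    intro t ht1 ht2
    have e := h (-t) (by omega) (by omega)
    have hc : cell q v (-t) = cell q (-v) t := by
      funext j
      simp [cell]
    rw [hc] at e
    rw [e]
    constructor <;> intro h5 <;> omega
  constructor
  · intro h
    have := key (-v) h
    rwa [neg_neg] at this
  · exact key v

lemma numGood_neg (v : Fin 2 → ℤ) : numGood Γ (-v) = numGood Γ v := by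
  unfold numGood
  congr 1
  ext q
  simp only [mem_filter, mem_univ, true_and]
  exact good_neg Γ v q

lemma dirs_two : dirs 2 = {![1, 0], ![0, 1], ![1, 1], ![1, -1], -![1, 0], -![0, 1], -![1, 1],
    -![1, -1]} := by
  decide

open Classical in
lemma card_appearances :
    (((univ ×ˢ dirs 2 : Finset (Torus n × (Fin 2 → ℤ))).filter
      (fun q => Appears w₀ Γ q.1 q.2)).card) = ∑ v ∈ dirs 2, numApp Γ v := by
  unfold numApp
  rw [card_filter, sum_product_right]
  apply sum_congr rfl
  intro v _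
  rw [card_filter]

theorem conc_le : conc w₀ n Γ ≤ 3 / 2 := by
  unfold conc
  rw [card_appearances]
  have hpos : (0 : ℝ) < Fintype.card (Torus n) := by
    have : 0 < Fintype.card (Torus n) := Fintype.card_pos
    exact_mod_cast this
  rw [div_le_iff₀ hpos]
  have h1 : 4 * ∑ v ∈ dirs 2, numApp Γ v ≤ ∑ v ∈ dirs 2, numGood Γ v := by
    rw [mul_sum]
    exact sum_le_sum (fun v _ => app_le Γ v)
  have h2 : ∑ v ∈ dirs 2, numGood Γ v =
      2 * (numGood Γ ![1, 0] + numGood Γ ![0, 1] + numGood Γ ![1, 1] + numGood Γ ![1, -1]) := by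
    rw [dirs_two]
    rw [sum_insert (by decide), sum_insert (by decide), sum_insert (by decide),
      sum_insert (by decide), sum_insert (by decide), sum_insert (by decide),
      sum_insert (by decide), sum_singleton]
    simp only [numGood_neg]
    ring
  have h3 := sum_window Γ
  have h4 : 2 * ∑ v ∈ dirs 2, numApp Γ v ≤ 3 * Fintype.card (Torus n) := by omega
  have h5 : (2 : ℝ) * ((∑ v ∈ dirs 2, numApp Γ v : ℕ) : ℝ) ≤
      3 * (Fintype.card (Torus n) : ℝ) := by exact_mod_cast h4
  linarith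

end upper

/-! ### Two optimal grids on the `4 × 4` torus -/

/-- side lengths of the `4 × 4` torus -/
abbrev n₀ : Fin 2 → ℕ := fun _ => 4

instance : ∀ j, NeZero (n₀ j) := fun _ => ⟨by norm_num [n₀]⟩

/-- stripes: the letter is `A` exactly in the row `y = 0` -/
def Γ₁ : Torus n₀ → ℕ := fun p => if p 1 = 0 then 0 else 1

/-- the second optimal grid, with six `A`s:
```
A A . A
. . A .
A . . .
A . . .
```
-/
def Γ₂ : Torus n₀ → ℕ := fun p =>
  ([0, 0, 1, 0, 1, 1, 0, 1, 0, 1, 1, 1, 0, 1, 1, 1] : List ℕ).getD (4 * (p 0).val + (p 1).val) 1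

instance {d : ℕ} {n : Fin d → ℕ} (w : List ℕ) (Γ : Torus n → ℕ) (p : Torus n) (v : Fin d → ℤ) :
    Decidable (Appears w Γ p v) := by
  unfold Appears; infer_instance

set_option maxRecDepth 100000 in
lemma count₁ : ((univ ×ˢ dirs 2 : Finset (Torus n₀ × (Fin 2 → ℤ))).filter
    (fun q => Appears w₀ Γ₁ q.1 q.2)).card = 24 := by
  decide +kernel

set_option maxRecDepth 100000 in
lemma count₂ : ((univ ×ˢ dirs 2 : Finset (Torus n₀ × (Fin 2 → ℤ))).filter
    (fun q => Appears w₀ Γ₂ q.1 q.2)).card = 24 := by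
  decide +kernel

lemma card_torus : Fintype.card (Torus n₀) = 16 := by
  simp [Torus, n₀, Fintype.card_pi]

lemma conc₁ : conc w₀ n₀ Γ₁ = 3 / 2 := by
  unfold conc
  rw [card_torus]
  have h : ∀ (inst : DecidablePred (fun q : Torus n₀ × (Fin 2 → ℤ) => Appears w₀ Γ₁ q.1 q.2)),
      (@Finset.filter _ (fun q : Torus n₀ × (Fin 2 → ℤ) => Appears w₀ Γ₁ q.1 q.2) inst
        (univ ×ˢ dirs 2)).card = 24 := by
    intro inst
    rw [← count₁]
    congr
  rw [h]
  norm_num

lemma conc₂ : conc w₀ n₀ Γ₂ = 3 / 2 := by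
  unfold conc
  rw [card_torus]
  have h : ∀ (inst : DecidablePred (fun q : Torus n₀ × (Fin 2 → ℤ) => Appears w₀ Γ₂ q.1 q.2)),
      (@Finset.filter _ (fun q : Torus n₀ × (Fin 2 → ℤ) => Appears w₀ Γ₂ q.1 q.2) inst
        (univ ×ˢ dirs 2)).card = 24 := by
    intro inst
    rw [← count₂]
    congr
  rw [h]
  norm_num

lemma dist_count₁ : (univ.filter (fun p : Torus n₀ => Γ₁ p = 0)).card = 4 := by
  decide +kernel

lemma dist_count₂ : (univ.filter (fun p : Torus n₀ => Γ₂ p = 0)).card = 6 := by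
  decide +kernel

lemma letterDist₁ : letterDist n₀ Γ₁ 0 = 1 / 4 := by
  unfold letterDist
  rw [card_torus]
  have h : ∀ (inst : DecidablePred (fun p : Torus n₀ => Γ₁ p = 0)),
      (@Finset.filter _ (fun p : Torus n₀ => Γ₁ p = 0) inst univ).card = 4 := by
    intro inst
    rw [← dist_count₁]
    congr
  rw [h]
  norm_num

lemma letterDist₂ : letterDist n₀ Γ₂ 0 = 3 / 8 := by
  unfold letterDist
  rw [card_torus]
  have h : ∀ (inst : DecidablePred (fun p : Torus n₀ => Γ₂ p = 0)),
      (@Finset.filter _ (fun p : Torus n₀ => Γ₂ p = 0) inst univ).card = 6 := by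
    intro inst
    rw [← dist_count₂]
    congr
  rw [h]
  norm_num

theorem C_eq : C 2 w₀ = 3 / 2 := by
  unfold C
  apply IsGreatest.csSup_eq
  constructor
  · exact ⟨n₀, inferInstance, Γ₁, conc₁.symm⟩
  · rintro c ⟨n, hn, Γ, rfl⟩
    exact conc_le Γ

lemma letterDist_support {d : ℕ} (n : Fin d → ℕ) [∀ j, NeZero (n j)] (Γ : Torus n → ℕ) :
    (Function.support (letterDist n Γ)).Finite := by
  apply Set.Finite.subset (Set.finite_range Γ)
  intro a ha
  rw [Function.mem_support] at ha
  by_contra hcon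
  apply ha
  unfold letterDist
  have : (univ.filter (fun p : Torus n => Γ p = a)) = ∅ := by
    apply filter_eq_empty_iff.2
    intro p _ hp
    exact hcon ⟨p, hp⟩
  rw [this]
  simp

lemma le_tv {h₁ h₂ : ℕ → ℝ} (f₁ : (Function.support h₁).Finite)
    (f₂ : (Function.support h₂).Finite) (a : ℕ) : (1 / 2) * |h₁ a - h₂ a| ≤ tv h₁ h₂ := by
  unfold tv
  have hfin : (Function.support (fun a => |h₁ a - h₂ a|)).Finite := by
    apply Set.Finite.subset (f₁.union f₂)
    intro b hb
    rw [Function.mem_support] at hb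
    by_contra hcon
    rw [Set.mem_union, Function.mem_support, Function.mem_support] at hcon
    push Not at hcon
    apply hb
    rw [hcon.1, hcon.2]
    simp
  have := single_le_finsum a hfin (fun b => abs_nonneg (h₁ b - h₂ b))
  linarith

/-- **Result.** Let `w₀ = (ABBB)^4`.  In dimension `2` we have `C_2(w₀) = 3/2`; the supremum is
attained by two grids on the `4 × 4` torus whose letter distributions give the letter `A` the
frequencies `1/4` and `3/8`.  Consequently no letter distribution works for `(w₀, 2)` (already with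
`δ = 0`), and the answer to Q1 is negative. -/
theorem result :
    C 2 w₀ = 3 / 2 ∧
    conc w₀ n₀ Γ₁ = 3 / 2 ∧ conc w₀ n₀ Γ₂ = 3 / 2 ∧
    letterDist n₀ Γ₁ 0 = 1 / 4 ∧ letterDist n₀ Γ₂ 0 = 3 / 8 ∧
    ¬ StableFor w₀ 2 ∧
    ¬ (∀ (w : List ℕ) (d : ℕ), 1 ≤ d → (∃ a ∈ w, ∃ b ∈ w, a ≠ b) → StableFor w d) := by
  have key : ¬ StableFor w₀ 2 := by
    rintro ⟨h, hh, hst⟩
    have h1 := hst 0 n₀ inferInstance Γ₁ le_rfl (by rw [C_eq, conc₁]; norm_num)
    have h2 := hst 0 n₀ inferInstance Γ₂ le_rfl (by rw [C_eq, conc₂]; norm_num)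
    have e1 := le_tv (letterDist_support n₀ Γ₁) hh.2.1 0
    have e2 := le_tv (letterDist_support n₀ Γ₂) hh.2.1 0
    rw [letterDist₁] at e1
    rw [letterDist₂] at e2
    have a1 : |1 / 4 - h 0| ≤ 0 := by linarith
    have a2 : |3 / 8 - h 0| ≤ 0 := by linarith
    have b1 := abs_nonpos_iff.1 a1
    have b2 := abs_nonpos_iff.1 a2
    linarith
  refine ⟨C_eq, conc₁, conc₂, letterDist₁, letterDist₂, key, ?_⟩
  intro hall
  exact key (hall w₀ 2 (by norm_num) ⟨0, by simp [w₀], 1, by simp [w₀], by norm_num⟩)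

end Pool.Agent.Results.MP_f54ac9_co.TwoOptimalGrids
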